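import Pool.Agent.BER.StmtsE

set_option autoImplicit false

/-!
# BER, row NRA: no resonance with a fixed factor
-/

namespace Pool.Agent.BER.H77

open Set Filter Topology

/-- the numbers `b + M π` are `0` or bounded away from `0` -/
theorem nra_gap (b : ℝ) : ∃ δ : ℝ, 0 < δ ∧ ∀ M : ℤ,
    b + M * Real.pi = 0 ∨ δ ≤ |b + M * Real.pi| := by
  have hpi := Real.pi_pos
  have key : ∀ M : ℤ, |b + M * Real.pi| = Real.pi * |b / Real.pi + M| := by
    intro M
    rw [← abs_of_pos hpi, ← abs_mul, abs_of_pos hpi]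
    congr 1
    field_simp
  by_cases h : b / Real.pi = round (b / Real.pi)
  · refine ⟨Real.pi, hpi, fun M => ?_⟩
    by_cases h0 : round (b / Real.pi) + M = 0
    · left
      have h1 : b / Real.pi + M = 0 := by rw [h]; exact_mod_cast h0
      have h2 : |b + M * Real.pi| = 0 := by rw [key, h1, abs_zero, mul_zero]
      exact abs_eq_zero.1 h2
    · right
      rw [key, h]
      have h1 : (1 : ℝ) ≤ |((round (b / Real.pi) : ℤ) : ℝ) + M| := by
        exact_mod_cast Int.one_le_abs h0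
      calc Real.pi = Real.pi * 1 := (mul_one _).symm
        _ ≤ _ := mul_le_mul_of_nonneg_left h1 hpi.le
  · have hp : 0 < |b / Real.pi - round (b / Real.pi)| := abs_pos.2 (sub_ne_zero.2 h)
    refine ⟨Real.pi * |b / Real.pi - round (b / Real.pi)|, mul_pos hpi hp, fun M => Or.inr ?_⟩
    rw [key]
    refine mul_le_mul_of_nonneg_left ?_ hpi.le
    have h1 := round_le (b / Real.pi) (-M)
    rw [Int.cast_neg, sub_neg_eq_add] at h1
    exact h1

/-- **NRA** -/
theorem nra : NraStmt := by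
  intro c β Z hc hZ n hn
  obtain ⟨C, X0, hC, hX0, H⟩ := hZ
  obtain ⟨δ, hδ, hδ'⟩ := nra_gap (((n : ℝ) - 1) * β)
  have hn2 : (2 : ℝ) ≤ n := by exact_mod_cast hn
  have hn0 : (0 : ℝ) < n := by linarith
  have hinv : 1 / (n : ℝ) ≤ 1 := by rw [div_le_one hn0]; linarith
  have hc' : 0 < |c| := abs_pos.2 hc
  obtain ⟨D, hD⟩ : ∃ D : ℝ, D = ((n : ℝ) - 1 / n) * |c| / 2 := ⟨_, rfl⟩
  obtain ⟨E, hE⟩ : ∃ E : ℝ, E = ((n : ℝ) + 1) * C := ⟨_, rfl⟩
  have hD0 : 0 < D := by
    rw [hD]
    have : 0 < (n : ℝ) - 1 / n := by linarith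
    positivity
  have hE0 : 0 < E := by rw [hE]; positivity
  refine ⟨X0 + E / D + (D + E) / δ + 1, fun x hx => ?_⟩
  rintro ⟨h1, h2⟩
  have hED : 0 < E / D := div_pos hE0 hD0
  have hDE : 0 < (D + E) / δ := div_pos (add_pos hD0 hE0) hδ
  have hx1 : 1 ≤ x := by linarith
  have hx0 : 0 < x := by linarith
  have hxx : X0 ≤ x := by linarith
  have hnx : x ≤ n * x := by nlinarith
  obtain ⟨k, hk⟩ := H x h1 hxx
  obtain ⟨k', hk'⟩ := H (n * x) h2 (hxx.trans hnx)
  have e1 : ((n : ℝ) - 1) * β + ((n * k - k' : ℤ) : ℝ) * Real.pi - ((n : ℝ) - 1 / n) * c / (2 * x) =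
      -(n * (x - β - k * Real.pi + c / (2 * x)) -
        (n * x - β - k' * Real.pi + c / (2 * (n * x)))) := by
    push_cast
    field_simp
    ring
  have e2 : |((n : ℝ) - 1) * β + ((n * k - k' : ℤ) : ℝ) * Real.pi -
      ((n : ℝ) - 1 / n) * c / (2 * x)| ≤ E / x ^ 2 := by
    rw [e1, abs_neg]
    have a1 : |(n : ℝ) * (x - β - k * Real.pi + c / (2 * x))| ≤ n * (C / x ^ 2) := by
      rw [abs_mul, abs_of_pos hn0]
      exact mul_le_mul_of_nonneg_left hk hn0.le
    have a2 : C / (n * x) ^ 2 ≤ C / x ^ 2 := by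
      refine div_le_div_of_nonneg_left hC.le (by positivity) ?_
      exact pow_le_pow_left₀ hx0.le hnx 2
    have a3 := abs_sub (n * (x - β - k * Real.pi + c / (2 * x)))
      (n * x - β - k' * Real.pi + c / (2 * (n * x)))
    have a4 : E / x ^ 2 = n * (C / x ^ 2) + C / x ^ 2 := by rw [hE]; ring
    linarith
  have e3 : |((n : ℝ) - 1 / n) * c / (2 * x)| = D / x := by
    rw [abs_div, abs_mul, abs_of_pos (by linarith : 0 < (n : ℝ) - 1 / n),
      abs_of_pos (by linarith : 0 < 2 * x), hD]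
    field_simp
  rcases hδ' (n * k - k') with h0 | h0
  · rw [h0, zero_sub, abs_neg, e3, div_le_div_iff₀ hx0 (by positivity)] at e2
    have h3 : D * x ≤ E := by
      have h4 : D * x * x ≤ E * x := by nlinarith
      exact le_of_mul_le_mul_right h4 hx0
    have h5 : x ≤ E / D := by rw [le_div_iff₀ hD0]; linarith
    linarith
  · have h3 : |((n : ℝ) - 1) * β + ((n * k - k' : ℤ) : ℝ) * Real.pi| ≤ E / x ^ 2 + D / x := by
      have h4 := abs_sub_abs_le_abs_sub (((n : ℝ) - 1) * β + ((n * k - k' : ℤ) : ℝ) * Real.pi)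
        (((n : ℝ) - 1 / n) * c / (2 * x))
      rw [e3] at h4
      linarith
    have h5 : E / x ^ 2 ≤ E / x := by
      refine div_le_div_of_nonneg_left hE0.le hx0 ?_
      nlinarith
    have h6 : δ ≤ (D + E) / x := by
      have : (D + E) / x = D / x + E / x := by ring
      linarith
    rw [le_div_iff₀ hx0] at h6
    have h7 : x ≤ (D + E) / δ := by rw [le_div_iff₀ hδ]; linarith
    linarith

end Pool.Agent.BER.H77
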